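import Pool.Agent.Q247.AC.Qary

set_option autoImplicit false
set_option linter.unusedSectionVars false

/-!
# Relative density inside sets decided by circuits: blocks of consecutive letters
-/

namespace Pool.Agent.Q247.AC

open Finset Function

section
variable {n m : ℕ}

/-- the block of positions -/
def blk (n m j : ℕ) : Finset (Fin n) := univ.filter fun i => (i : ℕ) / m = j

theorem blk_card (hm : 0 < m) (j : ℕ) : (blk n m j).card ≤ m := by
  have h : ((blk n m j).image fun i : Fin n => (i : ℕ) % m).card = (blk n m j).card := by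
    apply card_image_of_injOn
    intro i hi i' hi' h
    have h1 : (i : ℕ) / m = j := (mem_filter.1 hi).2
    have h2 : (i' : ℕ) / m = j := (mem_filter.1 hi').2
    have h' : (i : ℕ) % m = (i' : ℕ) % m := h
    apply Fin.ext
    rw [← Nat.div_add_mod (i : ℕ) m, ← Nat.div_add_mod (i' : ℕ) m, h1, h2, h']
  rw [← h]
  refine (card_le_card (t := range m) ?_).trans (card_range m).le
  intro t ht
  obtain ⟨i, -, rfl⟩ := mem_image.1 ht
  exact mem_range.2 (Nat.mod_lt _ hm)

theorem blk_disjoint {j j' : ℕ} (h : j ≠ j') : Disjoint (blk n m j) (blk n m j') := by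
  rw [disjoint_left]
  intro b hb hb'
  exact h ((mem_filter.1 hb).2.symm.trans (mem_filter.1 hb').2)

variable {X : Type} [AddCommGroup X]

/-- extension by zero -/
def ext (n : ℕ) (hm : 0 < m) (j : ℕ) (s : Fin m → X) : Fin n → X :=
  fun i => if (i : ℕ) / m = j then s ⟨(i : ℕ) % m, Nat.mod_lt _ hm⟩ else 0

theorem ext_add (hm : 0 < m) (j : ℕ) (s t : Fin m → X) :
    ext n hm j (s + t) = ext n hm j s + ext n hm j t := by
  funext i
  rw [Pi.add_apply]
  unfold ext
  by_cases h : (i : ℕ) / m = j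
  · rw [if_pos h, if_pos h, if_pos h]
    rfl
  · rw [if_neg h, if_neg h, if_neg h, add_zero]

theorem ext_nsmul (hm : 0 < m) (j c : ℕ) (s : Fin m → X) :
    ext n hm j (c • s) = c • ext n hm j s := by
  funext i
  rw [Pi.smul_apply]
  unfold ext
  by_cases h : (i : ℕ) / m = j
  · rw [if_pos h, if_pos h]
    rfl
  · rw [if_neg h, if_neg h, smul_zero]

theorem ext_eq_zero (hm : 0 < m) {j : ℕ} (hj : j < n / m) {s : Fin m → X}
    (h : ext n hm j s = 0) : s = 0 := by
  funext t
  have hlt : j * m + t < n := by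
    have h1 : (j + 1) * m ≤ n / m * m := Nat.mul_le_mul_right _ hj
    have h2 := Nat.div_mul_le_self n m
    have h3 := t.2
    have h4 : (j + 1) * m = j * m + m := by ring
    omega
  have h1 := congrFun h ⟨j * m + t, hlt⟩
  unfold ext at h1
  have e1 : (j * m + (t : ℕ)) / m = j := by
    rw [mul_comm, Nat.mul_add_div hm, Nat.div_eq_of_lt t.2, add_zero]
  have e2 : (j * m + (t : ℕ)) % m = t := by
    rw [mul_comm, Nat.mul_add_mod, Nat.mod_eq_of_lt t.2]
  simp only [e1, if_true, Pi.zero_apply] at h1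
  have e3 : (⟨(j * m + (t : ℕ)) % m, Nat.mod_lt _ hm⟩ : Fin m) = t := Fin.ext e2
  rw [e3] at h1
  exact h1

variable [Fintype X] [DecidableEq X]

/-- **Relative density and blocks of consecutive letters.** -/
theorem rel_blocks {w ℓ d : ℕ} (C : Circuit w n X) (hw : 1 ≤ w) (hd1 : 1 ≤ d)
    (hs : Nat.card C.Node ≤ 2 ^ ℓ) (hd : ∀ v, C.depth v ≤ d) (o : C.Node)
    (F A : Finset (Fin n → X)) (hF : ∀ x, x ∈ F ↔ C.val o x = true)
    (hm : 0 < m) (hmn : m ≤ n) (r : ℕ)
    (hA : ∀ (x : Fin n → X) (j : ℕ), j < n / m →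
      ((univ : Finset (Fin m → X)).filter fun t => x + ext n hm j t ∈ A).card ≤ r)
    {ε : ℝ} (hε : 0 ≤ ε) :
    ((A ∩ F).card : ℝ) ≤ (r / (Fintype.card X : ℝ) ^ m + ε) * F.card +
      m * err (Fintype.card X) n w ℓ d (ε * (n / m : ℕ)) := by
  classical
  have hk : 1 ≤ n / m := (Nat.one_le_div_iff hm).2 hmn
  have h := rel_main C hw hd1 hs hd o F A hF hk (fun j : Fin (n / m) => blk n m j)
    (fun j j' hjj => blk_disjoint fun h => hjj (Fin.ext h)) (fun j => blk_card hm j)
    (T := Fin m → X) (fun t i => Equiv.addRight (t ⟨(i : ℕ) % m, Nat.mod_lt _ hm⟩)) r ?_ hε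
  · rw [Fintype.card_fun, Fintype.card_fin] at h
    push_cast at h
    exact h
  · intro j x
    refine le_trans (le_of_eq ?_) (hA x j j.2)
    congr 1
    apply filter_congr
    intro t _
    have e : mv (fun i => Equiv.addRight (t ⟨(i : ℕ) % m, Nat.mod_lt _ hm⟩)) (blk n m j) x =
        x + ext n hm j t := by
      funext i
      rw [Pi.add_apply]
      unfold mv ext
      by_cases hi : (i : ℕ) / m = j
      · have hi2 : i ∈ blk n m (j : ℕ) := mem_filter.2 ⟨mem_univ _, hi⟩
        rw [if_pos hi2, if_pos hi]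
        rfl
      · have hi2 : i ∉ blk n m (j : ℕ) := fun h => hi (mem_filter.1 h).2
        rw [if_neg hi2, if_neg hi, add_zero]
    rw [e]

/-- the form with an arbitrary density -/
theorem rel_delta [Nonempty X] (δ : ℝ) (hδ : 0 < δ) (hm : 0 < m) :
    ∃ c : ℝ, 0 < c ∧ ∀ (n w ℓ d : ℕ) (C : Circuit w n X), 1 ≤ w → 1 ≤ d →
      Nat.card C.Node ≤ 2 ^ ℓ → (∀ v, C.depth v ≤ d) → ∀ (o : C.Node)
      (F A : Finset (Fin n → X)), (∀ x, x ∈ F ↔ C.val o x = true) →
      (∀ (x : Fin n → X) (j : ℕ), j < n / m →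
        (((univ : Finset (Fin m → X)).filter fun t => x + ext n hm j t ∈ A).card : ℝ) ≤
          δ / 2 * (Fintype.card X : ℝ) ^ m) →
      ((A ∩ F).card : ℝ) ≤ δ * F.card + (Fintype.card X : ℝ) ^ n *
        (2 : ℝ) ^ (2 * ℓ + 1 / c - c * n / (d * Y347.CO.KK d w (ℓ + 1)) : ℝ) := by
  have hm0 : (0 : ℝ) < m := by exact_mod_cast hm
  have hm1 : (1 : ℝ) ≤ m := by exact_mod_cast hm
  set c : ℝ := min (δ / (2 * m)) (1 / (m + 7 + δ / 2)) with hc
  have hc0 : 0 < c := lt_min (by positivity) (by positivity)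
  have hc1 : c ≤ δ / (2 * m) := min_le_left _ _
  have hc2 : c ≤ 1 / (m + 7 + δ / 2) := min_le_right _ _
  have hc3 : (m : ℝ) + 7 + δ / 2 ≤ 1 / c := by
    rw [le_div_iff₀ hc0]
    rw [le_div_iff₀ (by positivity)] at hc2
    linarith
  have hc4 : c ≤ 1 := by
    refine hc2.trans ?_
    rw [div_le_one (by positivity)]
    have : 0 < δ / 2 := by positivity
    linarith
  refine ⟨c, hc0, ?_⟩
  intro n w ℓ d C hw hd1 hs hd o F A hF hA
  have hL1 : (1 : ℝ) ≤ (d : ℝ) * Y347.CO.KK d w (ℓ + 1) := by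
    have h1 : 0 < d * Y347.CO.KK d w (ℓ + 1) := by
      unfold Y347.CO.KK
      have : 0 < w * (ℓ + 1) := Nat.mul_pos hw (by omega)
      positivity
    exact_mod_cast h1
  set L : ℝ := (d : ℝ) * Y347.CO.KK d w (ℓ + 1) with hL
  have hL0 : 0 < L := by linarith
  by_cases hmn : m ≤ n
  · have h := rel_blocks C hw hd1 hs hd o F A hF hm hmn ⌊δ / 2 * (Fintype.card X : ℝ) ^ m⌋₊
      (fun x j hj => Nat.le_floor (hA x j hj)) (ε := δ / 2) (by positivity)
    refine h.trans (add_le_add ?_ ?_)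
    · apply mul_le_mul_of_nonneg_right _ (Nat.cast_nonneg _)
      have hX : (0 : ℝ) < (Fintype.card X : ℝ) ^ m := by
        have : (0 : ℝ) < Fintype.card X := by exact_mod_cast Fintype.card_pos
        positivity
      have h1 : ((⌊δ / 2 * (Fintype.card X : ℝ) ^ m⌋₊ : ℕ) : ℝ) ≤
          δ / 2 * (Fintype.card X : ℝ) ^ m := Nat.floor_le (by positivity)
      have h2 : ((⌊δ / 2 * (Fintype.card X : ℝ) ^ m⌋₊ : ℕ) : ℝ) / (Fintype.card X : ℝ) ^ m ≤
          δ / 2 := by
        rw [div_le_iff₀ hX]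
        exact h1
      linarith
    · unfold err
      rw [← hL]
      have hm2 : (m : ℝ) ≤ (2 : ℝ) ^ (m : ℝ) := by
        rw [Real.rpow_natCast]
        have : m < 2 ^ m := Nat.lt_two_pow_self
        exact_mod_cast this.le
      have h3 : ((n / m : ℕ) : ℝ) ≥ n / m - 1 := by
        have h4 := Nat.div_add_mod n m
        have h5 := Nat.mod_lt n hm
        have h6 : (n : ℝ) = m * ((n / m : ℕ) : ℝ) + ((n % m : ℕ) : ℝ) := by exact_mod_cast h4.symm
        have h7 : ((n % m : ℕ) : ℝ) < m := by exact_mod_cast h5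
        rw [ge_iff_le, sub_le_iff_le_add, div_le_iff₀ hm0]
        rw [h6]
        nlinarith
      have h8 : (m : ℝ) * ((Fintype.card X : ℝ) ^ n *
          (2 : ℝ) ^ (2 * ℓ + 6 - δ / 2 * ((n / m : ℕ) : ℝ) / L : ℝ)) ≤
          (Fintype.card X : ℝ) ^ n * ((2 : ℝ) ^ (m : ℝ) *
            (2 : ℝ) ^ (2 * ℓ + 6 - δ / 2 * ((n / m : ℕ) : ℝ) / L : ℝ)) := by
        have hpos : (0 : ℝ) ≤ (Fintype.card X : ℝ) ^ n *
          (2 : ℝ) ^ (2 * ℓ + 6 - δ / 2 * ((n / m : ℕ) : ℝ) / L : ℝ) := by positivity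
        have := mul_le_mul_of_nonneg_right hm2 hpos
        refine this.trans (le_of_eq ?_)
        ring
      refine h8.trans ?_
      rw [← Real.rpow_add (by norm_num)]
      apply mul_le_mul_of_nonneg_left _ (by positivity)
      apply Real.rpow_le_rpow_of_exponent_le (by norm_num)
      have h9 : δ / 2 * ((n : ℝ) / m - 1) / L ≤ δ / 2 * ((n / m : ℕ) : ℝ) / L := by
        apply div_le_div_of_nonneg_right _ hL0.le
        exact mul_le_mul_of_nonneg_left h3 (by positivity)
      have h10 : c * n / L ≤ δ / (2 * m) * n / L := by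
        apply div_le_div_of_nonneg_right _ hL0.le
        exact mul_le_mul_of_nonneg_right hc1 (Nat.cast_nonneg _)
      have h11 : δ / 2 * ((n : ℝ) / m - 1) / L = δ / (2 * m) * n / L - δ / 2 / L := by
        field_simp
      have h12 : δ / 2 / L ≤ δ / 2 := div_le_self (by positivity) hL1
      linarith
  · -- few letters
    push Not at hmn
    have h1 : ((A ∩ F).card : ℝ) ≤ (Fintype.card X : ℝ) ^ n := by
      have := card_le_univ (A ∩ F)
      rw [Fintype.card_fun, Fintype.card_fin] at this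
      exact_mod_cast this
    have h2 : (1 : ℝ) ≤ (2 : ℝ) ^ (2 * ℓ + 1 / c - c * n / L : ℝ) := by
      apply Real.one_le_rpow (by norm_num)
      have h3 : c * n / L ≤ n := by
        refine (div_le_self (by positivity) hL1).trans ?_
        have hn0 : (0 : ℝ) ≤ n := Nat.cast_nonneg _
        nlinarith
      have h4 : (n : ℝ) ≤ m := by exact_mod_cast hmn.le
      have h5 : (0 : ℝ) ≤ ℓ := Nat.cast_nonneg _
      have h6 : 0 < δ / 2 := by positivity
      linarith
    have h3 : (0 : ℝ) ≤ (Fintype.card X : ℝ) ^ n := by positivity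
    have h4 : 0 ≤ δ * (F.card : ℝ) := by positivity
    nlinarith

end

end Pool.Agent.Q247.AC
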