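import Pool.Agent.H602R3.DHJ.Main
import Mathlib

set_option autoImplicit false

/-!
# Dense subsets of `(Z/q)^m` contain full lines (density Hales-Jewett theorem)
-/

namespace Pool.Agent.Q247.AC

open Finset Function H602R3.DHJ

theorem dens (α : Type) [Fintype α] [Nonempty α] : D α := by
  have h : Fintype.card (Fin (Fintype.card α - 1 + 1)) = Fintype.card α := by
    rw [Fintype.card_fin]
    have := Fintype.card_pos (α := α)
    omega
  exact D_equiv (Fintype.equivOfCardEq h) (dhj _)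

/-- density Hales-Jewett theorem in large dimensions -/
theorem dens_card (α : Type) [Fintype α] [Nonempty α] [DecidableEq α] (δ : ℝ) (hδ : 0 < δ) :
    ∃ m : ℕ, 1 ≤ m ∧ ∀ m', m ≤ m' → ∀ B : Finset (Fin m' → α),
      δ * (Fintype.card α : ℝ) ^ m' < B.card →
      ∃ (V : Fin m' → α ⊕ Unit) (i : Fin m'), V i = Sum.inr () ∧
        ∀ a, (fun l => Sum.elim id (fun _ => a) (V l)) ∈ B := by
  obtain ⟨N, hN⟩ := dens α δ hδ
  refine ⟨N + 1, by omega, fun m' hm' B hB => ?_⟩
  by_contra hcon
  push Not at hcon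
  have h1 : dn (B : Set (Fin m' → α)) < δ := by
    refine D_up hN (Fin m') (by rw [Fintype.card_fin]; omega) _ ?_
    intro V hV
    obtain ⟨i, hi⟩ := hV ()
    obtain ⟨a, ha⟩ := hcon V i hi
    exact ⟨a, ha⟩
  have h2 : dn (B : Set (Fin m' → α)) = (B.card : ℝ) / Fintype.card (Fin m' → α) := by
    unfold dn av
    congr 1
    rw [← sum_subset (subset_univ B)]
    · rw [sum_congr rfl fun x hx => Set.indicator_of_mem (by simpa using hx) _]
      simp
    · intro x _ hx
      rw [Set.indicator_of_notMem]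
      simpa using hx
  have hpos : (0 : ℝ) < Fintype.card (Fin m' → α) := by exact_mod_cast Fintype.card_pos
  rw [h2, div_lt_iff₀ hpos, Fintype.card_fun, Fintype.card_fin] at h1
  push_cast at h1
  linarith

/-- dense subsets of `(Z/q)^m` contain full lines -/
theorem dens_line (q : ℕ) [NeZero q] (δ : ℝ) (hδ : 0 < δ) :
    ∃ m : ℕ, 1 ≤ m ∧ ∀ m', m ≤ m' → ∀ B : Finset (Fin m' → ZMod q),
      (∀ x y : Fin m' → ZMod q, (∀ a : ZMod q, x + a • y ∈ B) → y = 0) →
      1 < q → (B.card : ℝ) ≤ δ * (q : ℝ) ^ m' := by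
  obtain ⟨m, hm, h⟩ := dens_card (ZMod q) δ hδ
  refine ⟨m, hm, fun m' hm' B hB hq => ?_⟩
  by_contra hcon
  push Not at hcon
  obtain ⟨V, i, hi, hV⟩ := h m' hm' B (by rwa [ZMod.card])
  have h1 := hB (fun l => Sum.elim id (fun _ => 0) (V l)) (fun l => Sum.elim (fun _ => 0) (fun _ => 1) (V l)) ?_
  · have h2 := congrFun h1 i
    simp only [hi, Sum.elim_inr, Pi.zero_apply] at h2
    have : Fact (1 < q) := ⟨hq⟩
    exact one_ne_zero h2
  · intro a
    convert hV a using 1
    funext l
    rw [Pi.add_apply, Pi.smul_apply]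
    rcases V l with b | b <;> simp

end Pool.Agent.Q247.AC
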