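import Pool.Agent.Q247.AC.Blocks
import Pool.Agent.Q247.AC.Line

set_option autoImplicit false

/-!
# Sets of integers and their digits
-/

namespace Pool.Agent.Q247.AC

open Finset Function

section
variable {b n m : ℕ}

/-- the number with the digits `x 0, x 1, …` in base `b` (`x 0` is the last digit) -/
def value (x : Fin n → Fin b) : ℕ := ∑ i, (x i : ℕ) * b ^ (i : ℕ)

theorem value_eq (x : Fin n → Fin b) : value x = (finFunctionFinEquiv x : ℕ) := by
  rw [finFunctionFinEquiv_apply]
  rfl

theorem value_lt (x : Fin n → Fin b) : value x < b ^ n := by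
  rw [value_eq]
  exact (finFunctionFinEquiv x).2

theorem value_injective : Injective (value : (Fin n → Fin b) → ℕ) := by
  intro x y h
  rw [value_eq, value_eq] at h
  exact finFunctionFinEquiv.injective (Fin.ext h)

theorem exists_value {a : ℕ} (ha : a < b ^ n) : ∃ x : Fin n → Fin b, value x = a := by
  refine ⟨finFunctionFinEquiv.symm ⟨a, ha⟩, ?_⟩
  rw [value_eq, Equiv.apply_symm_apply]

/-- the words of the elements of a set -/
def words (b n : ℕ) (F : Finset ℕ) : Finset (Fin n → Fin b) := univ.filter fun x => value x ∈ F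

theorem mem_words {F : Finset ℕ} {x : Fin n → Fin b} : x ∈ words b n F ↔ value x ∈ F := by
  rw [words, mem_filter]
  exact ⟨fun h => h.2, fun h => ⟨mem_univ _, h⟩⟩

theorem card_words {F : Finset ℕ} (hF : ∀ a ∈ F, a < b ^ n) : (words b n F).card = F.card := by
  apply card_bij (fun x _ => value x)
  · intro x hx
    exact mem_words.1 hx
  · intro x _ y _ h
    exact value_injective h
  · intro a ha
    obtain ⟨x, rfl⟩ := exists_value (hF a ha)
    exact ⟨x, mem_words.2 ha, rfl⟩

theorem words_inter (A F : Finset ℕ) : words b n A ∩ words b n F = words b n (A ∩ F) := by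
  ext x
  rw [mem_inter, mem_words, mem_words, mem_words, mem_inter]

/-- changing one digit -/
theorem value_update (x : Fin n → Fin b) (i : Fin n) :
    ∃ R : ℕ, ∀ v : Fin b, value (update x i v) = R + v * b ^ (i : ℕ) := by
  classical
  refine ⟨∑ l ∈ univ.erase i, (x l : ℕ) * b ^ (l : ℕ), fun v => ?_⟩
  unfold value
  rw [← sum_erase_add univ _ (mem_univ i), update_self]
  congr 1
  apply sum_congr rfl
  intro l hl
  rw [update_of_ne (ne_of_mem_erase hl)]

variable [NeZero b]

/-- changing the digits of a block -/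
theorem value_block (hm : 0 < m) (x : Fin n → Fin b) {j : ℕ} (hj : j < n / m) :
    ∃ (R : ℕ) (y : Fin m → Fin b), ∀ t : Fin m → Fin b,
      value (x + ext n hm j t) = R + value (y + t) * b ^ (j * m) := by
  classical
  have hlt : ∀ l : Fin m, j * m + l < n := by
    intro l
    have h1 : (j + 1) * m ≤ n / m * m := Nat.mul_le_mul_right _ hj
    have h2 := Nat.div_mul_le_self n m
    have h3 := l.2
    have h4 : (j + 1) * m = j * m + m := by ring
    omega
  refine ⟨∑ i ∈ univ.filter (fun i : Fin n => ¬ (i : ℕ) / m = j), (x i : ℕ) * b ^ (i : ℕ),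
    fun l => x ⟨j * m + l, hlt l⟩, fun t => ?_⟩
  have e1 : value (x + ext n hm j t) =
      ∑ i ∈ univ.filter (fun i : Fin n => ¬ (i : ℕ) / m = j),
        (((x + ext n hm j t) i : Fin b) : ℕ) * b ^ (i : ℕ) +
      ∑ i ∈ univ.filter (fun i : Fin n => (i : ℕ) / m = j),
        (((x + ext n hm j t) i : Fin b) : ℕ) * b ^ (i : ℕ) := by
    unfold value
    rw [← sum_filter_add_sum_filter_not univ (fun i : Fin n => (i : ℕ) / m = j), add_comm]
  rw [e1]
  congr 1
  · apply sum_congr rfl
    intro i hi
    have h := (mem_filter.1 hi).2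
    rw [Pi.add_apply]
    unfold ext
    rw [if_neg h, add_zero]
  · unfold value
    rw [sum_mul]
    symm
    apply sum_bij (fun (l : Fin m) _ => (⟨j * m + l, hlt l⟩ : Fin n))
    · intro l _
      rw [mem_filter]
      refine ⟨mem_univ _, ?_⟩
      show (j * m + (l : ℕ)) / m = j
      rw [mul_comm, Nat.mul_add_div hm, Nat.div_eq_of_lt l.2, add_zero]
    · intro l _ l' _ h
      have h1 : j * m + (l : ℕ) = j * m + l' := congrArg Fin.val h
      apply Fin.ext
      omega
    · intro i hi
      have h := (mem_filter.1 hi).2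
      refine ⟨⟨(i : ℕ) % m, Nat.mod_lt _ hm⟩, mem_univ _, ?_⟩
      apply Fin.ext
      show j * m + (i : ℕ) % m = i
      rw [← h, mul_comm]
      exact Nat.div_add_mod _ _
    · intro l _
      have e2 : (j * m + (l : ℕ)) / m = j := by
        rw [mul_comm, Nat.mul_add_div hm, Nat.div_eq_of_lt l.2, add_zero]
      have e3 : (j * m + (l : ℕ)) % m = l := by
        rw [mul_comm, Nat.mul_add_mod, Nat.mod_eq_of_lt l.2]
      have e4 : (⟨(j * m + (l : ℕ)) % m, Nat.mod_lt _ hm⟩ : Fin m) = l := Fin.ext e3
      have e5 : ext n hm j t ⟨j * m + l, hlt l⟩ = t l := by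
        unfold ext
        rw [if_pos e2, e4]
      rw [Pi.add_apply, Pi.add_apply, e5, mul_assoc, ← pow_add, add_comm (l : ℕ) (j * m)]

/-- `A` contains no `k`-term arithmetic progression with positive difference -/
def NoAP (k : ℕ) (A : Finset ℕ) : Prop := ∀ a d : ℕ, 0 < d → ¬ ∀ i < k, a + i * d ∈ A

/-- the contents of a block -/
theorem block_card (hb : 1 < b) (hm : 0 < m) {k r : ℕ} {A : Finset ℕ} (hA : NoAP k A)
    (hr : ∀ B : Finset ℕ, (∀ a ∈ B, a < b ^ m) → NoAP k B → B.card ≤ r)
    (x : Fin n → Fin b) {j : ℕ} (hj : j < n / m) :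
    ((univ : Finset (Fin m → Fin b)).filter fun t => x + ext n hm j t ∈ words b n A).card ≤ r := by
  classical
  obtain ⟨R, y, hR⟩ := value_block hm x hj
  have h1 : ((univ : Finset (Fin m → Fin b)).filter fun t => x + ext n hm j t ∈ words b n A).card =
      (((univ : Finset (Fin m → Fin b)).filter
        fun t => x + ext n hm j t ∈ words b n A).image fun t => value (y + t)).card := by
    rw [card_image_of_injective]
    intro t t' h
    exact add_left_cancel (value_injective h)
  rw [h1]
  apply hr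
  · intro a ha
    obtain ⟨t, -, rfl⟩ := mem_image.1 ha
    exact value_lt _
  · intro a d hd hcon
    apply hA (R + a * b ^ (j * m)) (d * b ^ (j * m)) (by positivity)
    intro i hi
    obtain ⟨t, ht, hta⟩ := mem_image.1 (hcon i hi)
    have h2 := mem_words.1 (mem_filter.1 ht).2
    rw [hR, hta] at h2
    convert h2 using 1
    ring

end

/-- **Szemerédi's theorem** for the intervals `[0, b ^ m)` -/
theorem szem (k b : ℕ) (hb : 2 ≤ b) (δ : ℝ) (hδ : 0 < δ) : ∃ m : ℕ, 1 ≤ m ∧
    ∀ B : Finset ℕ, (∀ a ∈ B, a < b ^ m) → NoAP k B → (B.card : ℝ) ≤ δ * (b : ℝ) ^ m := by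
  classical
  set q := b ^ (k + 1) with hq
  have hqk : k < q := by
    have h1 : k + 1 < 2 ^ (k + 1) := Nat.lt_two_pow_self
    have h2 : 2 ^ (k + 1) ≤ b ^ (k + 1) := Nat.pow_le_pow_left hb _
    omega
  have : Nonempty (Fin q) := ⟨⟨0, by omega⟩⟩
  obtain ⟨m, hm, h⟩ := dens_card (Fin q) δ hδ
  refine ⟨(k + 1) * m, Nat.mul_pos (by omega) (by omega), fun B hB hfree => ?_⟩
  have hqm : b ^ ((k + 1) * m) = q ^ m := by rw [hq, pow_mul]
  by_contra hcon
  push Not at hcon
  have hqm' : (b : ℝ) ^ ((k + 1) * m) = (q : ℝ) ^ m := by exact_mod_cast hqm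
  rw [hqm'] at hcon
  obtain ⟨V, i, hi, hV⟩ := h m le_rfl (words q m B) (by
    rw [Fintype.card_fin, card_words (fun a ha => by rw [← hqm]; exact hB a ha)]
    exact hcon)
  refine hfree (∑ l ∈ univ.filter (fun l => ¬ V l = Sum.inr ()),
      ((Sum.elim id (fun _ => (⟨0, by omega⟩ : Fin q)) (V l) : Fin q) : ℕ) * q ^ (l : ℕ))
    (∑ l ∈ univ.filter (fun l => V l = Sum.inr ()), q ^ (l : ℕ)) ?_ ?_
  · apply sum_pos
    · intro l _
      positivity
    · exact ⟨i, mem_filter.2 ⟨mem_univ _, hi⟩⟩
  · intro a ha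
    have h1 := mem_words.1 (hV ⟨a, by omega⟩)
    have h2 : value (fun l => Sum.elim id (fun _ => (⟨a, by omega⟩ : Fin q)) (V l)) =
        ∑ l ∈ univ.filter (fun l => ¬ V l = Sum.inr ()),
          ((Sum.elim id (fun _ => (⟨0, by omega⟩ : Fin q)) (V l) : Fin q) : ℕ) * q ^ (l : ℕ) +
        a * ∑ l ∈ univ.filter (fun l => V l = Sum.inr ()), q ^ (l : ℕ) := by
      unfold value
      rw [← sum_filter_add_sum_filter_not univ (fun l => V l = Sum.inr ()), add_comm, mul_sum]
      congr 1
      · apply sum_congr rfl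
        intro l hl
        have h3 := (mem_filter.1 hl).2
        dsimp only
        rcases hVl : V l with c | c
        · simp
        · exact absurd (by rw [hVl]) h3
      · apply sum_congr rfl
        intro l hl
        dsimp only
        rw [(mem_filter.1 hl).2]
        simp
    rw [h2] at h1
    exact h1

end Pool.Agent.Q247.AC
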