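import Pool.Agent.Y347.CO.Rel
import Pool.Agent.Y220.CO.Tail

set_option autoImplicit false
set_option linter.unusedSectionVars false

/-!
# Circuits of constant depth over finite alphabets

We consider sets `F` of words of length `n` over a finite alphabet `X` that are decided by circuits
of constant depth whose inputs are arbitrary tests of single letters. The number of the points of
`F` which leave `F` when a permutation of the alphabet is applied to one of their letters is small
on average over the coordinates (`sum_bd_le`). It is deduced from the tail bound for the sensitivity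
of Boolean circuits (`Pool.Agent.Y220.CO.done`). Consequences: `rel_main`, `small_main`.
-/

namespace Pool.Agent.Q247.AC

open Finset Function

/-- A circuit which reads a word `x` of length `n` over the alphabet `X`. `val v x` is the bit at the
node `v` if the input is `x`. Every node is a test of one letter (the bit is `c (x i)`, the depth is
at least `1`) or a gate. An element `(u, b)` of a set `J` of wires is a wire from the node `u`, and it
is true if the bit at `u` is `b` (so negations are free). The gates are of the following kinds: an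
arbitrary gate with at most `w` wires (its value is a function of the set of its true wires), an AND
gate, an OR gate. The depth grows along the wires. -/
structure Circuit (w n : ℕ) (X : Type) where
  Node : Type
  [finite : Finite Node]
  val : Node → (Fin n → X) → Bool
  depth : Node → ℕ
  rule : ∀ v : Node, (1 ≤ depth v ∧ ∃ (i : Fin n) (c : X → Bool), ∀ x, val v x = c (x i)) ∨
    ∃ J : Finset (Node × Bool), (∀ u ∈ J, depth u.1 < depth v) ∧
      ((J.card ≤ w ∧ ∃ F : Finset (Node × Bool) → Bool,
          ∀ x, val v x = F (J.filter fun u => val u.1 x = u.2)) ∨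
        (∀ x, val v x = decide (∀ u ∈ J, val u.1 x = u.2)) ∨
        (∀ x, val v x = decide (∃ u ∈ J, val u.1 x = u.2)))

section
variable {w n : ℕ} {X : Type}

/-- the point with the base `u` and the bits `y` -/
def pt (σ : Fin n → Equiv.Perm X) (u : Fin n → X) (y : Fin n → Bool) : Fin n → X :=
  fun i => if y i = true then σ i (u i) else u i

/-- the embedding of wires -/
def wemb (N : Type) : (N × Bool) ↪ ((N ⊕ N) × Bool) where
  toFun u := (Sum.inl u.1, u.2)
  inj' u v h := by
    have h1 := congrArg Prod.fst h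
    have h2 := congrArg Prod.snd h
    exact Prod.ext (Sum.inl_injective h1) h2

open Classical in
/-- the value at the nodes of the Boolean circuit -/
noncomputable def bval (C : Circuit w n X) (σ : Fin n → Equiv.Perm X) (u : Fin n → X) :
    C.Node ⊕ C.Node → (Fin n → Bool) → Bool
  | Sum.inl v, y => C.val v (pt σ u y)
  | Sum.inr v, y => if h : ∃ (i : Fin n) (c : X → Bool), ∀ x, C.val v x = c (x i) then
      y (Classical.choose h) else true

/-- the depth of the nodes of the Boolean circuit -/
def bdepth (C : Circuit w n X) : C.Node ⊕ C.Node → ℕ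
  | Sum.inl v => C.depth v
  | Sum.inr _ => 0

theorem brule (C : Circuit w n X) (hw : 1 ≤ w) (σ : Fin n → Equiv.Perm X) (u : Fin n → X)
    (v : C.Node ⊕ C.Node) : v ∈ (∅ : Finset (C.Node ⊕ C.Node)) ∨
    (∃ i, ∀ x, bval C σ u v x = x i) ∨
    ∃ J : Finset ((C.Node ⊕ C.Node) × Bool), (∀ u ∈ J, bdepth C u.1 < bdepth C v) ∧
      ((J.card ≤ w ∧ ∃ F : Finset ((C.Node ⊕ C.Node) × Bool) → Bool,
          ∀ x, bval C σ u v x = F (J.filter fun t => bval C σ u t.1 x = t.2)) ∨
        (∀ x, bval C σ u v x = decide (∀ t ∈ J, bval C σ u t.1 x = t.2)) ∨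
        (∀ x, bval C σ u v x = decide (∃ t ∈ J, bval C σ u t.1 x = t.2))) := by
  classical
  right
  rcases v with v | v
  · right
    rcases C.rule v with ⟨hd, h⟩ | ⟨J, hJ, h⟩
    · obtain ⟨c, hc⟩ := Classical.choose_spec h
      refine ⟨{(Sum.inr v, true)}, ?_, Or.inl ⟨by simpa using hw, fun S =>
        if (Sum.inr v, true) ∈ S then c (σ (Classical.choose h) (u (Classical.choose h))) else
          c (u (Classical.choose h)), fun y => ?_⟩⟩
      · intro t ht
        rw [mem_singleton] at ht
        rw [ht]
        exact hd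
      · have e1 : bval C σ u (Sum.inr v) y = y (Classical.choose h) := dif_pos h
        have e2 : bval C σ u (Sum.inl v) y = c (pt σ u y (Classical.choose h)) := hc _
        rw [e2]
        unfold pt
        dsimp only
        by_cases hy : y (Classical.choose h) = true
        · rw [if_pos hy, if_pos]
          rw [mem_filter]
          exact ⟨mem_singleton_self _, by rw [e1]; exact hy⟩
        · rw [if_neg hy, if_neg]
          rw [mem_filter]
          rintro ⟨-, h2⟩
          exact hy (by rw [← e1]; exact h2)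
    · refine ⟨J.map (wemb C.Node), ?_, ?_⟩
      · intro t ht
        obtain ⟨s, hs, rfl⟩ := mem_map.1 ht
        exact hJ s hs
      · have key : ∀ (y : Fin n → Bool) (s : C.Node × Bool),
            (bval C σ u ((wemb C.Node s).1) y = (wemb C.Node s).2) ↔
              C.val s.1 (pt σ u y) = s.2 := fun _ _ => Iff.rfl
        rcases h with ⟨hcard, G, hG⟩ | h | h
        · left
          refine ⟨by rw [card_map]; exact hcard, fun S =>
            G (J.filter fun s => wemb C.Node s ∈ S), fun y => ?_⟩
          rw [show bval C σ u (Sum.inl v) y = C.val v (pt σ u y) from rfl, hG]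
          congr 1
          apply filter_congr
          intro s hs
          rw [mem_filter]
          constructor
          · intro h
            exact ⟨mem_map_of_mem _ hs, (key y s).2 h⟩
          · intro h
            exact (key y s).1 h.2
        · right; left
          intro y
          rw [show bval C σ u (Sum.inl v) y = C.val v (pt σ u y) from rfl, h]
          apply decide_eq_decide.2
          constructor
          · intro h t ht
            obtain ⟨s, hs, rfl⟩ := mem_map.1 ht
            exact (key y s).2 (h s hs)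
          · intro h s hs
            exact (key y s).1 (h _ (mem_map_of_mem _ hs))
        · right; right
          intro y
          rw [show bval C σ u (Sum.inl v) y = C.val v (pt σ u y) from rfl, h]
          apply decide_eq_decide.2
          constructor
          · rintro ⟨s, hs, h⟩
            exact ⟨_, mem_map_of_mem _ hs, (key y s).2 h⟩
          · rintro ⟨t, ht, h⟩
            obtain ⟨s, hs, rfl⟩ := mem_map.1 ht
            exact ⟨s, hs, (key y s).1 h⟩
  · by_cases h : ∃ (i : Fin n) (c : X → Bool), ∀ x, C.val v x = c (x i)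
    · left
      exact ⟨Classical.choose h, fun y => dif_pos h⟩
    · right
      refine ⟨∅, by simp, Or.inr (Or.inl fun y => ?_)⟩
      have e : bval C σ u (Sum.inr v) y = true := dif_neg h
      rw [e]
      simp

/-- the Boolean circuit which decides the restriction to a combinatorial cube -/
noncomputable def toBool (C : Circuit w n X) (hw : 1 ≤ w) (σ : Fin n → Equiv.Perm X)
    (u : Fin n → X) : Y603.MS.Circuit w n where
  Node := C.Node ⊕ C.Node
  finite := by
    have := C.finite
    infer_instance
  val := bval C σ u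
  depth := bdepth C
  leak := ∅
  rule := brule C hw σ u

/-- the number of the points of `F` which leave `F` if the permutation `σ` of the alphabet is applied
to the letter `i` -/
def bd [DecidableEq X] (F : Finset (Fin n → X)) (i : Fin n) (σ : Equiv.Perm X) : ℕ :=
  (F.filter fun x => update x i (σ (x i)) ∉ F).card

/-- applying a permutation to a letter -/
def upd (i : Fin n) (σ : Equiv.Perm X) : Equiv.Perm (Fin n → X) where
  toFun x := update x i (σ (x i))
  invFun x := update x i (σ.symm (x i))
  left_inv x := by simp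
  right_inv x := by simp

theorem bd_symm [DecidableEq X] (F : Finset (Fin n → X)) (i : Fin n) (σ : Equiv.Perm X) :
    bd F i σ.symm = bd F i σ := by
  have h1 : ∀ τ : Equiv.Perm X, (F.filter fun x => update x i (τ (x i)) ∈ F).card +
      bd F i τ = F.card := fun τ => card_filter_add_card_filter_not (s := F)
      (fun x => update x i (τ (x i)) ∈ F)
  have h2 : (F.filter fun x => update x i (σ (x i)) ∈ F).card =
      (F.filter fun x => update x i (σ.symm (x i)) ∈ F).card := by
    apply card_bij' (fun x _ => upd i σ x) (fun x _ => (upd i σ).symm x)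
    · intro x hx
      rw [mem_filter] at hx ⊢
      refine ⟨hx.2, ?_⟩
      have : (upd i σ).symm (upd i σ x) ∈ F := by
        rw [Equiv.symm_apply_apply]; exact hx.1
      exact this
    · intro x hx
      rw [mem_filter] at hx ⊢
      refine ⟨hx.2, ?_⟩
      have : (upd i σ) ((upd i σ).symm x) ∈ F := by
        rw [Equiv.apply_symm_apply]; exact hx.1
      exact this
    · intro x _
      simp
    · intro x _
      simp
  have h3 := h1 σ
  have h4 := h1 σ.symm
  omega

end

section
variable {w n : ℕ} {X : Type} [Fintype X] [DecidableEq X]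

/-- the letters are moved according to the bits -/
def mvb (σ : Fin n → Equiv.Perm X) (y : Fin n → Bool) : Equiv.Perm (Fin n → X) :=
  Equiv.piCongrRight fun i => if y i = true then σ i else 1

theorem mvb_apply (σ : Fin n → Equiv.Perm X) (y : Fin n → Bool) (u : Fin n → X) :
    mvb σ y u = pt σ u y := by
  funext i
  unfold mvb pt
  by_cases h : y i = true
  · simp [h]
  · simp [h]

/-- flipping one bit -/
theorem pt_flip (σ : Fin n → Equiv.Perm X) (u : Fin n → X) (y : Fin n → Bool) (i : Fin n) :
    pt σ u (update y i (!(y i))) =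
      update (pt σ u y) i ((if y i = true then (σ i).symm else σ i) (pt σ u y i)) := by
  funext l
  rcases eq_or_ne l i with rfl | hl
  · rw [update_self]
    unfold pt
    rw [update_self]
    cases h : y l <;> simp
  · rw [update_of_ne hl]
    unfold pt
    rw [update_of_ne hl]

/-- the points and the directions which leave `F` -/
theorem count_i (F : Finset (Fin n → X)) (σ : Fin n → Equiv.Perm X) (i : Fin n)
    (y : Fin n → Bool) :
    ((univ : Finset (Fin n → X)).filter fun u => pt σ u y ∈ F ∧
      pt σ u (update y i (!(y i))) ∉ F).card = bd F i (σ i) := by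
  have h1 : ((univ : Finset (Fin n → X)).filter fun u => pt σ u y ∈ F ∧
      pt σ u (update y i (!(y i))) ∉ F).card =
      bd F i (if y i = true then (σ i).symm else σ i) := by
    unfold bd
    apply card_bij' (fun x _ => mvb σ y x) (fun x _ => (mvb σ y).symm x)
    · intro u hu
      rw [mem_filter] at hu ⊢
      rw [mvb_apply]
      refine ⟨hu.2.1, ?_⟩
      rw [← pt_flip]
      exact hu.2.2
    · intro x hx
      rw [mem_filter] at hx ⊢
      have e : pt σ ((mvb σ y).symm x) y = x := by
        rw [← mvb_apply, Equiv.apply_symm_apply]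
      refine ⟨mem_univ _, ?_, ?_⟩
      · rw [e]; exact hx.1
      · rw [pt_flip, e]
        exact hx.2
    · intro x _
      simp
    · intro x _
      simp
  rw [h1]
  split_ifs
  · exact bd_symm F i (σ i)
  · rfl

theorem count_y (F : Finset (Fin n → X)) (σ : Fin n → Equiv.Perm X) (y : Fin n → Bool) :
    ((univ : Finset (Fin n → X)).filter fun u => pt σ u y ∈ F).card = F.card := by
  apply card_bij' (fun x _ => mvb σ y x) (fun x _ => (mvb σ y).symm x)
  · intro u hu
    rw [mem_filter] at hu
    rw [mvb_apply]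
    exact hu.2
  · intro x hx
    rw [mem_filter]
    refine ⟨mem_univ _, ?_⟩
    rw [← mvb_apply, Equiv.apply_symm_apply]
    exact hx
  · intro x _
    simp
  · intro x _
    simp

/-- the error term -/
noncomputable def err (q n w ℓ d : ℕ) (κ : ℝ) : ℝ :=
  (q : ℝ) ^ n * (2 : ℝ) ^ (2 * ℓ + 6 - κ / (d * Y347.CO.KK d w (ℓ + 1)) : ℝ)

/-- **The boundary of sets decided by circuits of constant depth.** -/
theorem sum_bd_le (C : Circuit w n X) {ℓ d : ℕ} (hw : 1 ≤ w) (hd1 : 1 ≤ d)
    (hs : Nat.card C.Node ≤ 2 ^ ℓ) (hd : ∀ v, C.depth v ≤ d) (o : C.Node)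
    (F : Finset (Fin n → X)) (hF : ∀ x, x ∈ F ↔ C.val o x = true) (σ : Fin n → Equiv.Perm X)
    (D : Finset (Fin n)) {κ : ℝ} (hκ : 0 ≤ κ) :
    ((∑ i ∈ D, bd F i (σ i) : ℕ) : ℝ) ≤
      κ * F.card + D.card * err (Fintype.card X) n w ℓ d κ := by
  classical
  set Fu : (Fin n → X) → Finset (Fin n → Bool) := fun u => univ.filter fun y => pt σ u y ∈ F
    with hFu
  set f : (Fin n → X) → (Fin n → Bool) → Bool := fun u y => C.val o (pt σ u y) with hf
  have hcardN : Nat.card (C.Node ⊕ C.Node) ≤ 2 ^ (ℓ + 1) := by
    have := C.finite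
    rw [Nat.card_sum, pow_succ]
    omega
  have h1 : ∀ u, ∑ y ∈ Fu u, (((Y347.CO.sens (f u) y) ∩ D).card : ℝ) ≤ κ * (Fu u).card +
      D.card * (2 ^ n * (2 : ℝ) ^ (2 * ((ℓ + 1 : ℕ) : ℝ) + 4 -
        κ / (d * Y347.CO.KK d w (ℓ + 1)))) := by
    intro u
    exact Y347.CO.sum_sens_le Y220.CO.done (toBool C hw σ u) rfl (by omega) hw hd1 hcardN
      (by
        rintro (v | v)
        · exact hd v
        · exact Nat.zero_le _) (Sum.inl o) D (Fu u) hκ
  have h2 := sum_le_sum fun u (_ : u ∈ (univ : Finset (Fin n → X))) => h1 u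
  rw [sum_add_distrib, ← mul_sum, sum_const, card_univ, nsmul_eq_mul] at h2
  have hX : (Fintype.card (Fin n → X) : ℝ) = (Fintype.card X : ℝ) ^ n := by
    rw [Fintype.card_fun, Fintype.card_fin]
    push_cast
    rfl
  have hB : (Fintype.card (Fin n → Bool)) = 2 ^ n := by
    rw [Fintype.card_fun, Fintype.card_fin, Fintype.card_bool]
  have h3 : ∑ u, ((Fu u).card : ℝ) = 2 ^ n * F.card := by
    have e : ∑ u, (Fu u).card = ∑ y : Fin n → Bool,
        ((univ : Finset (Fin n → X)).filter fun u => pt σ u y ∈ F).card := by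
      simp only [hFu, card_filter]
      exact sum_comm
    have e2 : ∑ u, (Fu u).card = 2 ^ n * F.card := by
      rw [e, sum_congr rfl fun y _ => count_y F σ y, sum_const, card_univ, hB, smul_eq_mul]
    exact_mod_cast e2
  have h4 : ∑ u, ∑ y ∈ Fu u, (((Y347.CO.sens (f u) y) ∩ D).card : ℝ) =
      2 ^ n * ((∑ i ∈ D, bd F i (σ i) : ℕ) : ℝ) := by
    have e : ∀ u, ∑ y ∈ Fu u, ((Y347.CO.sens (f u) y) ∩ D).card = ∑ i ∈ D, ∑ y : Fin n → Bool,
        if pt σ u y ∈ F ∧ pt σ u (update y i (!(y i))) ∉ F then 1 else 0 := by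
      intro u
      rw [sum_comm]
      rw [hFu, sum_filter]
      apply sum_congr rfl
      intro y _
      by_cases hy : pt σ u y ∈ F
      · rw [if_pos hy, card_eq_sum_ones, ← sum_filter]
        apply sum_congr _ fun _ _ => rfl
        ext i
        rw [mem_inter, mem_filter, Y347.CO.sens, mem_filter]
        have hfy : f u y = true := (hF _).1 hy
        have h5 : (f u (update y i (!(y i))) ≠ f u y) ↔ pt σ u (update y i (!(y i))) ∉ F := by
          rw [hF, hfy]
        rw [h5]
        constructor
        · rintro ⟨⟨-, h6⟩, h7⟩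
          exact ⟨h7, hy, h6⟩
        · rintro ⟨h7, -, h6⟩
          exact ⟨⟨mem_univ _, h6⟩, h7⟩
      · rw [if_neg hy]
        symm
        apply sum_eq_zero
        intro i _
        rw [if_neg (fun h => hy h.1)]
    have e2 : ∑ u, ∑ y ∈ Fu u, ((Y347.CO.sens (f u) y) ∩ D).card =
        2 ^ n * ∑ i ∈ D, bd F i (σ i) := by
      rw [sum_congr rfl fun u _ => e u, sum_comm, mul_sum]
      apply sum_congr rfl
      intro i _
      rw [sum_comm]
      rw [sum_congr rfl fun y _ => (card_filter _ _).symm.trans (count_i F σ i y), sum_const,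
        card_univ, hB, smul_eq_mul]
    exact_mod_cast e2
  rw [h3, h4, hX] at h2
  have e : (2 : ℝ) * ((ℓ + 1 : ℕ) : ℝ) + 4 - κ / (d * Y347.CO.KK d w (ℓ + 1)) =
      2 * ℓ + 6 - κ / (d * Y347.CO.KK d w (ℓ + 1)) := by
    push_cast
    ring
  rw [e] at h2
  have h2n : (0 : ℝ) < 2 ^ n := by positivity
  unfold err
  have h5 : (2 : ℝ) ^ n * ((∑ i ∈ D, bd F i (σ i) : ℕ) : ℝ) ≤
      2 ^ n * (κ * F.card + D.card * ((Fintype.card X : ℝ) ^ n *
        (2 : ℝ) ^ (2 * ℓ + 6 - κ / (d * Y347.CO.KK d w (ℓ + 1)) : ℝ))) := by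
    refine h2.trans (le_of_eq ?_)
    ring
  exact le_of_mul_le_mul_left h5 h2n

/-- the letters in `V` are moved -/
def mv (σ : Fin n → Equiv.Perm X) (V : Finset (Fin n)) (x : Fin n → X) : Fin n → X :=
  fun i => if i ∈ V then σ i (x i) else x i

theorem mv_empty (σ : Fin n → Equiv.Perm X) (x : Fin n → X) : mv σ ∅ x = x := by
  funext i
  simp [mv]

theorem mv_insert (σ : Fin n → Equiv.Perm X) {V : Finset (Fin n)} {j : Fin n} (hj : j ∉ V)
    (x : Fin n → X) :
    mv σ (insert j V) x = update (mv σ V x) j (σ j (mv σ V x j)) := by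
  funext i
  rcases eq_or_ne i j with rfl | hij
  · simp [mv, hj]
  · simp [mv, hij]

theorem mv_symm_mv (σ : Fin n → Equiv.Perm X) (V : Finset (Fin n)) (x : Fin n → X) :
    mv (fun i => (σ i).symm) V (mv σ V x) = x := by
  funext i
  by_cases h : i ∈ V <;> simp [mv, h]

theorem mv_mv_symm (σ : Fin n → Equiv.Perm X) (V : Finset (Fin n)) (x : Fin n → X) :
    mv σ V (mv (fun i => (σ i).symm) V x) = x := by
  funext i
  by_cases h : i ∈ V <;> simp [mv, h]

theorem mv_injective (σ : Fin n → Equiv.Perm X) (V : Finset (Fin n)) : Injective (mv σ V) :=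
  fun x y h => by rw [← mv_symm_mv σ V x, h, mv_symm_mv]

theorem boundary_mv (F : Finset (Fin n → X)) (σ : Fin n → Equiv.Perm X) (V : Finset (Fin n)) :
    (F.filter fun x => mv σ V x ∉ F).card ≤ ∑ j ∈ V, bd F j (σ j) := by
  induction V using Finset.induction_on with
  | empty =>
    rw [sum_empty, Nat.le_zero, card_eq_zero, filter_eq_empty_iff]
    intro x hx
    rw [mv_empty]
    exact not_not.2 hx
  | insert j V hj ih =>
    rw [sum_insert hj]
    have h1 : (F.filter fun x => mv σ (insert j V) x ∉ F) ⊆
        (F.filter fun x => mv σ V x ∉ F) ∪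
          ((F.filter fun x => mv σ V x ∈ F).filter fun x => mv σ (insert j V) x ∉ F) := by
      intro x hx
      rw [mem_filter] at hx
      rw [mem_union, mem_filter, mem_filter, mem_filter]
      by_cases h : mv σ V x ∈ F
      · exact Or.inr ⟨⟨hx.1, h⟩, hx.2⟩
      · exact Or.inl ⟨hx.1, h⟩
    have h2 : ((F.filter fun x => mv σ V x ∈ F).filter
        fun x => mv σ (insert j V) x ∉ F).card ≤ bd F j (σ j) := by
      unfold bd
      apply card_le_card_of_injOn (mv σ V)
      · intro x hx
        rw [mem_coe, mem_filter, mem_filter] at hx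
        rw [mem_coe, mem_filter]
        refine ⟨hx.1.2, ?_⟩
        rw [← mv_insert σ hj]
        exact hx.2
      · exact (mv_injective σ V).injOn
    have h3 := card_le_card h1
    have h4 := card_union_le (F.filter fun x => mv σ V x ∉ F)
      ((F.filter fun x => mv σ V x ∈ F).filter fun x => mv σ (insert j V) x ∉ F)
    omega

/-- **Relative density inside sets decided by circuits of constant depth.** -/
theorem rel_main (C : Circuit w n X) {ℓ d : ℕ} (hw : 1 ≤ w) (hd1 : 1 ≤ d)
    (hs : Nat.card C.Node ≤ 2 ^ ℓ) (hd : ∀ v, C.depth v ≤ d) (o : C.Node)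
    (F A : Finset (Fin n → X)) (hF : ∀ x, x ∈ F ↔ C.val o x = true) {k q : ℕ} (hk : 1 ≤ k)
    (J : Fin k → Finset (Fin n)) (hJ : ∀ j j', j ≠ j' → Disjoint (J j) (J j'))
    (hq : ∀ j, (J j).card ≤ q) {T : Type} [Fintype T] [Nonempty T]
    (σ : T → Fin n → Equiv.Perm X) (r : ℕ)
    (hA : ∀ j x, (univ.filter fun t => mv (σ t) (J j) x ∈ A).card ≤ r) {ε : ℝ} (hε : 0 ≤ ε) :
    ((A ∩ F).card : ℝ) ≤ (r / Fintype.card T + ε) * F.card +
      q * err (Fintype.card X) n w ℓ d (ε * k) := by
  classical
  -- one block and one `t`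
  have h1 : ∀ j t, (A ∩ F).card ≤ (F.filter fun x => mv (σ t) (J j) x ∈ A).card +
      ∑ i ∈ J j, bd F i (σ t i) := by
    intro j t
    have h2 : (F.filter fun x => mv (fun i => (σ t i).symm) (J j) x ∉ F).card ≤
        ∑ i ∈ J j, bd F i (σ t i) :=
      (boundary_mv F (fun i => (σ t i).symm) (J j)).trans
        (le_of_eq (sum_congr rfl fun i _ => bd_symm F i (σ t i)))
    have h4 : A ∩ F ⊆ ((F.filter fun x => mv (σ t) (J j) x ∈ A).image (mv (σ t) (J j))) ∪
        (F.filter fun x => mv (fun i => (σ t i).symm) (J j) x ∉ F) := by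
      intro x hx
      rw [mem_inter] at hx
      rw [mem_union]
      by_cases h : mv (fun i => (σ t i).symm) (J j) x ∈ F
      · left
        rw [mem_image]
        exact ⟨mv (fun i => (σ t i).symm) (J j) x, mem_filter.2 ⟨h, by rw [mv_mv_symm]; exact hx.1⟩,
          mv_mv_symm _ _ _⟩
      · right
        exact mem_filter.2 ⟨hx.2, h⟩
    have h5 := (card_le_card h4).trans ((card_union_le _ _).trans
      (Nat.add_le_add_right card_image_le _))
    omega
  -- all `t`
  have h6 : ∀ j, Fintype.card T * (A ∩ F).card ≤ r * F.card +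
      ∑ t, ∑ i ∈ J j, bd F i (σ t i) := by
    intro j
    have h5 := sum_le_sum fun t (_ : t ∈ (univ : Finset T)) => h1 j t
    rw [sum_const, card_univ, smul_eq_mul, sum_add_distrib] at h5
    have h7 : ∑ t : T, (F.filter fun x => mv (σ t) (J j) x ∈ A).card ≤ r * F.card := by
      have e : ∑ t : T, (F.filter fun x => mv (σ t) (J j) x ∈ A).card =
          ∑ x ∈ F, (univ.filter fun t => mv (σ t) (J j) x ∈ A).card := by
        simp only [card_filter]
        exact sum_comm
      rw [e, mul_comm, ← smul_eq_mul, ← sum_const]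
      exact sum_le_sum fun x _ => hA j x
    omega
  -- all blocks
  have h7 := sum_le_sum fun j (_ : j ∈ (univ : Finset (Fin k))) => h6 j
  rw [sum_const, card_univ, Fintype.card_fin, smul_eq_mul, sum_add_distrib, sum_const, card_univ,
    Fintype.card_fin, smul_eq_mul, sum_comm] at h7
  set D : Finset (Fin n) := univ.biUnion J with hD
  have hDc : (D.card : ℝ) ≤ k * q := by
    have : D.card ≤ k * q := by
      refine card_biUnion_le.trans ((sum_le_sum fun j _ => hq j).trans ?_)
      rw [sum_const, card_univ, Fintype.card_fin, smul_eq_mul]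
    exact_mod_cast this
  have hk0 : (0 : ℝ) < k := by exact_mod_cast hk
  have hT0 : (0 : ℝ) < Fintype.card T := by exact_mod_cast Fintype.card_pos
  have h8 : ∀ t, ((∑ j, ∑ i ∈ J j, bd F i (σ t i) : ℕ) : ℝ) ≤
      (ε * k) * F.card + D.card * err (Fintype.card X) n w ℓ d (ε * k) := by
    intro t
    have e : ∑ j, ∑ i ∈ J j, bd F i (σ t i) = ∑ i ∈ D, bd F i (σ t i) := by
      rw [hD, sum_biUnion]
      intro j _ j' _ hjj
      exact hJ j j' hjj
    rw [e]
    exact sum_bd_le C hw hd1 hs hd o F hF (σ t) D (by positivity)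
  have h9 : ((∑ t, ∑ j, ∑ i ∈ J j, bd F i (σ t i) : ℕ) : ℝ) ≤ Fintype.card T *
      ((ε * k) * F.card + D.card * err (Fintype.card X) n w ℓ d (ε * k)) := by
    rw [Nat.cast_sum]
    refine (sum_le_sum fun t _ => h8 t).trans (le_of_eq ?_)
    rw [sum_const, card_univ, nsmul_eq_mul]
  have h10 : (k : ℝ) * (Fintype.card T * (A ∩ F).card) ≤ k * (r * F.card) + Fintype.card T *
      ((ε * k) * F.card + D.card * err (Fintype.card X) n w ℓ d (ε * k)) := by
    have : (k : ℝ) * (Fintype.card T * (A ∩ F).card) ≤ k * (r * F.card) +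
        ((∑ t, ∑ j, ∑ i ∈ J j, bd F i (σ t i) : ℕ) : ℝ) := by exact_mod_cast h7
    linarith
  have herr : 0 ≤ err (Fintype.card X) n w ℓ d (ε * k) := by
    unfold err
    positivity
  have h11 : (D.card : ℝ) * err (Fintype.card X) n w ℓ d (ε * k) ≤
      k * (q * err (Fintype.card X) n w ℓ d (ε * k)) := by
    have := mul_le_mul_of_nonneg_right hDc herr
    linarith
  have h12 : (k : ℝ) * (Fintype.card T * (A ∩ F).card) ≤ k * (r * F.card) + Fintype.card T *
      ((ε * k) * F.card + k * (q * err (Fintype.card X) n w ℓ d (ε * k))) := by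
    have := mul_le_mul_of_nonneg_left h11 hT0.le
    linarith
  have h13 : (Fintype.card T : ℝ) * (A ∩ F).card ≤ r * F.card + Fintype.card T *
      (ε * F.card + q * err (Fintype.card X) n w ℓ d (ε * k)) := by
    have : (k : ℝ) * (Fintype.card T * (A ∩ F).card) ≤ k * (r * F.card + Fintype.card T *
        (ε * F.card + q * err (Fintype.card X) n w ℓ d (ε * k))) := by
      refine h12.trans (le_of_eq ?_)
      ring
    exact le_of_mul_le_mul_left this hk0
  have e : (r / Fintype.card T + ε) * (F.card : ℝ) + q * err (Fintype.card X) n w ℓ d (ε * k) =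
      (r * F.card + Fintype.card T *
        (ε * F.card + q * err (Fintype.card X) n w ℓ d (ε * k))) / Fintype.card T := by
    field_simp
    ring
  rw [e, le_div_iff₀ hT0]
  linarith

/-- **Sets decided by circuits of constant depth all of whose points are sensitive in all
coordinates are small.** -/
theorem small_main (C : Circuit w n X) {ℓ d : ℕ} (hw : 1 ≤ w) (hd1 : 1 ≤ d)
    (hs : Nat.card C.Node ≤ 2 ^ ℓ) (hd : ∀ v, C.depth v ≤ d) (o : C.Node)
    (F : Finset (Fin n → X)) (hF : ∀ x, x ∈ F ↔ C.val o x = true) {c : ℕ} (hc : 1 ≤ c)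
    (σ : Fin c → Fin n → Equiv.Perm X)
    (h : ∀ x ∈ F, ∀ i, ∃ s, update x i (σ s i (x i)) ∉ F) :
    (F.card : ℝ) ≤ 2 * c * err (Fintype.card X) n w ℓ d (n / (2 * c)) := by
  classical
  rcases Nat.eq_zero_or_pos n with rfl | hn
  · have h1 : F.card ≤ 1 := by
      refine (card_le_univ F).trans ?_
      simp
    have h2 : (F.card : ℝ) ≤ 1 := by exact_mod_cast h1
    refine h2.trans ?_
    unfold err
    have hc' : (1 : ℝ) ≤ c := by exact_mod_cast hc
    have h3 : (1 : ℝ) ≤ (2 : ℝ) ^ (2 * ℓ + 6 - ((0 : ℕ) : ℝ) / (2 * c) /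
        (d * Y347.CO.KK d w (ℓ + 1)) : ℝ) := by
      apply Real.one_le_rpow (by norm_num)
      simp
      positivity
    rw [pow_zero, one_mul]
    nlinarith
  have hn0 : (0 : ℝ) < n := by exact_mod_cast hn
  have hc0 : (0 : ℝ) < c := by exact_mod_cast hc
  have h1 : n * F.card ≤ ∑ s, ∑ i, bd F i (σ s i) := by
    rw [sum_comm]
    have h2 : ∀ i : Fin n, F.card ≤ ∑ s, bd F i (σ s i) := by
      intro i
      have h3 : F ⊆ univ.biUnion fun s => F.filter fun x => update x i (σ s i (x i)) ∉ F := by
        intro x hx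
        obtain ⟨s, hs⟩ := h x hx i
        exact mem_biUnion.2 ⟨s, mem_univ _, mem_filter.2 ⟨hx, hs⟩⟩
      exact (card_le_card h3).trans card_biUnion_le
    have h4 := sum_le_sum fun i (_ : i ∈ (univ : Finset (Fin n))) => h2 i
    rwa [sum_const, card_univ, Fintype.card_fin, smul_eq_mul] at h4
  have h2 : ∀ s, ((∑ i, bd F i (σ s i) : ℕ) : ℝ) ≤
      (n / (2 * c) : ℝ) * F.card + n * err (Fintype.card X) n w ℓ d (n / (2 * c)) := by
    intro s
    have := sum_bd_le C hw hd1 hs hd o F hF (σ s) univ (κ := n / (2 * c)) (by positivity)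
    rwa [card_univ, Fintype.card_fin] at this
  have h3 : ((∑ s, ∑ i, bd F i (σ s i) : ℕ) : ℝ) ≤ c *
      ((n / (2 * c) : ℝ) * F.card + n * err (Fintype.card X) n w ℓ d (n / (2 * c))) := by
    rw [Nat.cast_sum]
    refine (sum_le_sum fun s _ => h2 s).trans (le_of_eq ?_)
    rw [sum_const, card_univ, Fintype.card_fin, nsmul_eq_mul]
  have h4 : (n : ℝ) * F.card ≤ c *
      ((n / (2 * c) : ℝ) * F.card + n * err (Fintype.card X) n w ℓ d (n / (2 * c))) := by
    have : (n : ℝ) * F.card ≤ ((∑ s, ∑ i, bd F i (σ s i) : ℕ) : ℝ) := by exact_mod_cast h1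
    linarith
  have e : (c : ℝ) * ((n / (2 * c) : ℝ) * F.card +
      n * err (Fintype.card X) n w ℓ d (n / (2 * c))) =
      n * (F.card / 2 + c * err (Fintype.card X) n w ℓ d (n / (2 * c))) := by
    field_simp
  rw [e] at h4
  have h5 := le_of_mul_le_mul_left h4 hn0
  linarith

end

end Pool.Agent.Q247.AC
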